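import Pool.Agent.Work.MP_6f78fb_rk.Interface

/-!
# Block THI2: injectivity if all columns are full
-/

open scoped BigOperators TensorProduct
open Classical

noncomputable section

namespace Pool.RookLC.helper67

open Pool.RookLC

/-! ### Signs and toggles -/

theorem sgn_toggle {L : Type} [DecidableEq L] (ε : Finset L) (u : L) :
    (-1 : ℂ) ^ (symmDiff ε {u}).card = - (-1 : ℂ) ^ ε.card := by
  by_cases h : u ∈ ε
  · have h1 : symmDiff ε {u} = ε.erase u := by
      ext v
      simp only [Finset.mem_symmDiff, Finset.mem_singleton, Finset.mem_erase]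
      constructor
      · rintro (⟨h1, h2⟩ | ⟨h1, h2⟩)
        · exact ⟨h2, h1⟩
        · exact absurd (h1 ▸ h) h2
      · rintro ⟨h1, h2⟩
        exact Or.inl ⟨h2, h1⟩
    have h2 := Finset.card_erase_add_one h
    rw [h1, ← h2, pow_succ]
    ring
  · have h1 : symmDiff ε {u} = insert u ε := by
      ext v
      simp only [Finset.mem_symmDiff, Finset.mem_singleton, Finset.mem_insert]
      constructor
      · rintro (⟨h1, h2⟩ | ⟨h1, h2⟩)
        · exact Or.inr h1
        · exact Or.inl h1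
      · rintro (h1 | h1)
        · exact Or.inr ⟨h1, h1 ▸ h⟩
        · exact Or.inl ⟨h1, fun h2 => h (h2 ▸ h1)⟩
    rw [h1, Finset.card_insert_of_notMem h, pow_succ]
    ring

theorem sgn_symmDiff {L : Type} [DecidableEq L] (A B : Finset L) :
    (-1 : ℂ) ^ (symmDiff A B).card = (-1 : ℂ) ^ A.card * (-1 : ℂ) ^ B.card := by
  induction B using Finset.induction_on generalizing A with
  | empty =>
    have h1 : symmDiff A (∅ : Finset L) = A := symmDiff_bot A
    rw [h1]; simp
  | insert b B hb ih =>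
    have h1 : symmDiff A (insert b B) = symmDiff (symmDiff A {b}) B := by
      ext v
      simp only [Finset.mem_symmDiff, Finset.mem_singleton, Finset.mem_insert]
      by_cases hv : v = b
      · subst hv
        simp [hb]
      · simp [hv]
    rw [h1, ih, sgn_toggle, Finset.card_insert_of_notMem hb, pow_succ]
    ring

theorem toggle_sum {L : Type} [Fintype L] [DecidableEq L] (F : Finset L → ℂ) (u : L)
    (h : ∀ ε, F (symmDiff ε {u}) = F ε) : ∑ ε : Finset L, (-1 : ℂ) ^ ε.card * F ε = 0 := by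
  refine Finset.sum_involution (fun ε _ => symmDiff ε {u}) ?_ ?_ ?_ ?_
  · intro ε _
    rw [sgn_toggle, h]
    ring
  · intro ε _ _ h2
    have h3 : u ∈ symmDiff ε {u} ↔ u ∈ ε := by rw [h2]
    simp only [Finset.mem_symmDiff, Finset.mem_singleton] at h3
    tauto
  · intro ε _
    exact Finset.mem_univ _
  · intro ε _
    exact symmDiff_symmDiff_cancel_right _ _

/-! ### Configurations from labels -/

section

variable {n m k t : ℕ}

/-- the state of a label -/
def stt (x : Fin k → Fin m) : Fin k ⊕ Fin t → St m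
  | Sum.inl s => some (some (x s))
  | Sum.inr _ => some none

/-- the configuration with the objects of the labels in `D` -/
def cfg (D : Fin k ⊕ Fin t → Prop) (ρ : Fin k ⊕ Fin t → Fin n) (x : Fin k → Fin m) : Cf n m :=
  fun a => if h : ∃ u, D u ∧ ρ u = a then stt x h.choose else none

theorem cfg_apply {D : Fin k ⊕ Fin t → Prop} {ρ : Fin k ⊕ Fin t → Fin n} {x : Fin k → Fin m}
    (hρ : ∀ u v, D u → D v → ρ u = ρ v → u = v) {u : Fin k ⊕ Fin t} (hu : D u) :
    cfg D ρ x (ρ u) = stt x u := by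
  have h : ∃ v, D v ∧ ρ v = ρ u := ⟨u, hu, rfl⟩
  unfold cfg
  rw [dif_pos h, hρ _ _ h.choose_spec.1 hu h.choose_spec.2]

theorem cfg_none {D : Fin k ⊕ Fin t → Prop} {ρ : Fin k ⊕ Fin t → Fin n} {x : Fin k → Fin m}
    {a : Fin n} (h : ∀ u, D u → ρ u ≠ a) : cfg D ρ x a = none := by
  unfold cfg
  rw [dif_neg]
  rintro ⟨u, hu, h1⟩
  exact h u hu h1

theorem stt_ne (x : Fin k → Fin m) (u : Fin k ⊕ Fin t) : stt x u ≠ none := by
  cases u <;> simp [stt]

/-- the full configuration -/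
def cf (ρ : Fin k ⊕ Fin t → Fin n) (x : Fin k → Fin m) : Cf n m := cfg (fun _ => True) ρ x

theorem cf_apply {ρ : Fin k ⊕ Fin t → Fin n} {x : Fin k → Fin m} (hρ : Function.Injective ρ)
    (u : Fin k ⊕ Fin t) : cf ρ x (ρ u) = stt x u :=
  cfg_apply (fun _ _ _ _ h => hρ h) trivial

theorem cf_none {ρ : Fin k ⊕ Fin t → Fin n} {x : Fin k → Fin m} {a : Fin n}
    (h : ∀ u, ρ u ≠ a) : cf ρ x a = none := cfg_none fun u _ => h u

theorem cf_update_x {ρ : Fin k ⊕ Fin t → Fin n} {x : Fin k → Fin m} (hρ : Function.Injective ρ)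
    (s : Fin k) (y : Fin m) : cf ρ (Function.update x s y) =
      Function.update (cf ρ x) (ρ (Sum.inl s)) (some (some y)) := by
  funext a
  by_cases h : ∃ u, ρ u = a
  · obtain ⟨u, rfl⟩ := h
    rw [cf_apply hρ]
    by_cases hu : u = Sum.inl s
    · subst hu
      simp [stt]
    · rw [Function.update_of_ne (fun h => hu (hρ h)), cf_apply hρ]
      cases u with
      | inl s' =>
        have : s' ≠ s := fun h => hu (by rw [h])
        simp [stt, Function.update_of_ne this]
      | inr _ => rfl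
  · push Not at h
    rw [cf_none h, Function.update_of_ne (fun h1 => h _ h1.symm), cf_none h]

theorem cf_update_rho {ρ : Fin k ⊕ Fin t → Fin n} {x : Fin k → Fin m} {u : Fin k ⊕ Fin t}
    {b : Fin n} (hρ : Function.Injective (Function.update ρ u b)) :
    cf (Function.update ρ u b) x = Function.update (cfg (fun v => v ≠ u) ρ x) b (stt x u) := by
  have hi : ∀ v w, v ≠ u → w ≠ u → ρ v = ρ w → v = w := by
    intro v w hv hw h
    apply hρ
    rw [Function.update_of_ne hv, Function.update_of_ne hw, h]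
  funext a
  by_cases h : ∃ v, Function.update ρ u b v = a
  · obtain ⟨v, rfl⟩ := h
    rw [cf_apply hρ]
    by_cases hv : v = u
    · subst hv
      simp
    · have hb : ρ v ≠ b := by
        intro h1
        apply hv
        apply hρ
        rw [Function.update_of_ne hv, Function.update_self, h1]
      rw [Function.update_of_ne hv, Function.update_of_ne hb]
      exact (cfg_apply hi hv).symm
  · push Not at h
    have hb : a ≠ b := fun h1 => h u (by rw [Function.update_self, h1])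
    rw [cf_none h, Function.update_of_ne hb, cfg_none]
    intro v hv h1
    exact h v (by rw [Function.update_of_ne hv, h1])

/-- the function on labels -/
def gL (g : Fn n m) (ρ : Fin k ⊕ Fin t → Fin n) (x : Fin k → Fin m) : ℂ :=
  if Function.Injective ρ then g (cf ρ x) else 0

theorem gL_inj {g : Fn n m} {ρ : Fin k ⊕ Fin t → Fin n} {x : Fin k → Fin m}
    (h : gL g ρ x ≠ 0) : Function.Injective ρ := by
  by_contra h1
  exact h (by unfold gL; rw [if_neg h1])

theorem gL_inj_x {g : Fn n m} (hg : ∀ α, g α ≠ 0 → Valid α) {ρ : Fin k ⊕ Fin t → Fin n}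
    {x : Fin k → Fin m} (h : gL g ρ x ≠ 0) : Function.Injective x := by
  have hρ := gL_inj h
  unfold gL at h
  rw [if_pos hρ] at h
  intro s s' hs
  have h1 := hg _ h (ρ (Sum.inl s)) (ρ (Sum.inl s')) (x s) (by rw [cf_apply hρ]; rfl)
    (by rw [cf_apply hρ, hs]; rfl)
  exact Sum.inl_injective (hρ h1)

theorem gL_harm_x {g : Fn n m} (hg : PosH g) (ρ : Fin k ⊕ Fin t → Fin n)
    (x : Fin k → Fin m) (s : Fin k) : ∑ y, gL g ρ (Function.update x s y) = 0 := by
  by_cases hρ : Function.Injective ρ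
  · unfold gL
    simp only [if_pos hρ, cf_update_x hρ]
    exact hg _ _
  · unfold gL
    simp only [if_neg hρ, Finset.sum_const_zero]

theorem gL_harm_rho {g : Fn n m} (hg : LabH g) (ρ : Fin k ⊕ Fin t → Fin n)
    (x : Fin k → Fin m) (u : Fin k ⊕ Fin t) : ∑ b, gL g (Function.update ρ u b) x = 0 := by
  by_cases hi : ∀ v w, v ≠ u → w ≠ u → ρ v = ρ w → v = w
  · obtain ⟨s, hs⟩ : ∃ s, stt x u = some s := by
      cases u with
      | inl s => exact ⟨_, rfl⟩
      | inr s => exact ⟨_, rfl⟩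
    have h1 := hg (cfg (fun v => v ≠ u) ρ x) s
    rw [Finset.sum_filter] at h1
    rw [← h1]
    refine Finset.sum_congr rfl fun b _ => ?_
    by_cases hb : cfg (fun v => v ≠ u) ρ x b = none
    · have hinj : Function.Injective (Function.update ρ u b) := by
        have key : ∀ v, v ≠ u → ρ v ≠ b := by
          intro v hv h2
          rw [← h2, cfg_apply hi hv] at hb
          exact stt_ne x v hb
        intro v w hvw
        by_cases hv : v = u
        · by_cases hw : w = u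
          · rw [hv, hw]
          · rw [hv, Function.update_self, Function.update_of_ne hw] at hvw
            exact absurd hvw.symm (key w hw)
        · by_cases hw : w = u
          · rw [hw, Function.update_self, Function.update_of_ne hv] at hvw
            exact absurd hvw (key v hv)
          · rw [Function.update_of_ne hv, Function.update_of_ne hw] at hvw
            exact hi v w hv hw hvw
      unfold gL
      rw [if_pos hb, if_pos hinj, cf_update_rho hinj, hs]
    · rw [if_neg hb]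
      unfold gL
      rw [if_neg]
      intro hinj
      apply hb
      apply cfg_none
      intro v hv h2
      apply hv
      apply hinj
      rw [Function.update_self, Function.update_of_ne hv, h2]
  · refine Finset.sum_eq_zero fun b _ => ?_
    unfold gL
    rw [if_neg]
    intro hinj
    apply hi
    intro v w hv hw h
    apply hinj
    rw [Function.update_of_ne hv, Function.update_of_ne hw, h]

/-! ### Evaluation -/

/-- the matrix of a map from the columns to the rows -/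
def pt (c : Fin m → Fin n) : Fin n × Fin m → ℂ := fun p => if c p.2 = p.1 then 1 else 0

/-- the state is compatible with the placement -/
def okr (c : Fin m → Fin n) (a : Fin n) : St m → Prop
  | none => True
  | some none => ∃ j, c j = a
  | some (some j) => c j = a

theorem pt_mem {c : Fin m → Fin n} (hc : Function.Injective c) : pt c ∈ UZ n m m := by
  have h1 : ∀ p, pt c p = 1 ↔ c p.2 = p.1 := by
    intro p
    unfold pt
    split_ifs with h <;> simp [h]
  refine ⟨⟨fun p => ?_, fun a j j' hj hj' => ?_, fun a a' j ha ha' => ?_⟩, ?_⟩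
  · unfold pt
    split_ifs
    · exact Or.inr rfl
    · exact Or.inl rfl
  · rw [h1] at hj hj'
    exact hc (hj.trans hj'.symm)
  · rw [h1] at ha ha'
    exact ha.symm.trans ha'
  · have h2 : (Finset.univ.image (fun j : Fin m => ((c j, j) : Fin n × Fin m))).card = m := by
      rw [Finset.card_image_of_injective _ (fun a b h => (Prod.mk.inj h).2), Finset.card_univ,
        Fintype.card_fin]
    refine h2.symm.le.trans (Finset.card_le_card ?_)
    intro p hp
    obtain ⟨j, -, rfl⟩ := Finset.mem_image.1 hp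
    rw [Finset.mem_filter, h1]
    exact ⟨Finset.mem_univ _, rfl⟩

theorem eval_val {c : Fin m → Fin n} (hc : Function.Injective c) (a : Fin n) (s : St m) :
    MvPolynomial.eval (pt c) (val a s) = if okr c a s then 1 else 0 := by
  rcases s with _ | _ | j
  · simp [val, okr]
  · simp only [val, okr, map_sum, MvPolynomial.eval_X, pt]
    by_cases h : ∃ j, c j = a
    · rw [if_pos h]
      obtain ⟨j, hj⟩ := h
      rw [Finset.sum_eq_single j]
      · rw [if_pos hj]
      · intro j' _ hne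
        rw [if_neg]
        exact fun h1 => hne (hc (h1.trans hj.symm))
      · exact fun h1 => absurd (Finset.mem_univ _) h1
    · rw [if_neg h]
      push Not at h
      exact Finset.sum_eq_zero fun j _ => if_neg (h j)
  · simp [val, okr, pt]

theorem eval_mon {c : Fin m → Fin n} (hc : Function.Injective c) (α : Cf n m) :
    MvPolynomial.eval (pt c) (mon α) = if ∀ a, okr c a (α a) then 1 else 0 := by
  unfold mon
  rw [map_prod]
  simp only [eval_val hc]
  rw [Finset.prod_boole]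
  simp

theorem eval_Th {c : Fin m → Fin n} (hc : Function.Injective c) (g : Fn n m) :
    MvPolynomial.eval (pt c) (Th n m g) = ∑ α, g α * (if ∀ a, okr c a (α a) then 1 else 0) := by
  show MvPolynomial.eval (pt c) (∑ α, g α • mon α) = _
  rw [map_sum]
  refine Finset.sum_congr rfl fun α _ => ?_
  rw [MvPolynomial.smul_eval, eval_mon hc]

theorem homog_Th {g : Fn n m} {i : ℕ} (hg : ∀ α, g α ≠ 0 → dd α = i) :
    (Th n m g).IsHomogeneous i := by
  show (∑ α, g α • mon α).IsHomogeneous i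
  refine MvPolynomial.IsHomogeneous.sum _ _ _ fun α _ => ?_
  by_cases h : g α = 0
  · rw [h, zero_smul]
    exact MvPolynomial.isHomogeneous_zero _ _ _
  · have h1 : (mon α).IsHomogeneous (∑ a, if α a ≠ none then 1 else 0) := by
      refine MvPolynomial.IsHomogeneous.prod _ _ _ fun a _ => ?_
      rcases hs : α a with _ | _ | j
      · simp only [val, ne_eq, not_true_eq_false, if_false]
        exact MvPolynomial.isHomogeneous_one _ _
      · rw [if_pos (by simp)]
        exact MvPolynomial.IsHomogeneous.sum _ _ _ fun j _ => MvPolynomial.isHomogeneous_X _ _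
      · rw [if_pos (by simp)]
        exact MvPolynomial.isHomogeneous_X _ _
    have h2 : (∑ a, if α a ≠ none then 1 else 0) = i := by
      rw [← hg α h, dd, Finset.card_filter]
    rw [h2] at h1
    rw [MvPolynomial.smul_eq_C_mul]
    simpa using (MvPolynomial.isHomogeneous_C _ (g α)).mul h1

/-! ### The cube of placements -/

/-- the rows of the special columns -/
def rowOf (ρ ρ' : Fin k ⊕ Fin t → Fin n) (ε : Finset (Fin k ⊕ Fin t)) :
    (Fin k ⊕ Fin k) ⊕ Fin t → Fin n
  | Sum.inl (Sum.inl s) => if Sum.inl s ∈ ε then ρ' (Sum.inl s) else ρ (Sum.inl s)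
  | Sum.inl (Sum.inr s) => if Sum.inl s ∈ ε then ρ (Sum.inl s) else ρ' (Sum.inl s)
  | Sum.inr s => if Sum.inr s ∈ ε then ρ' (Sum.inr s) else ρ (Sum.inr s)

/-- the label of a special column -/
def lab : (Fin k ⊕ Fin k) ⊕ Fin t → Fin k ⊕ Fin t
  | Sum.inl (Sum.inl s) => Sum.inl s
  | Sum.inl (Sum.inr s) => Sum.inl s
  | Sum.inr s => Sum.inr s

theorem rowOf_mem (ρ ρ' : Fin k ⊕ Fin t → Fin n) (ε : Finset (Fin k ⊕ Fin t))
    (v : (Fin k ⊕ Fin k) ⊕ Fin t) : rowOf ρ ρ' ε v = ρ (lab v) ∨ rowOf ρ ρ' ε v = ρ' (lab v) := by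
  rcases v with (s | s) | s <;> simp only [rowOf, lab] <;> split_ifs <;> simp

theorem rowOf_congr (ρ ρ' : Fin k ⊕ Fin t → Fin n) {ε ε' : Finset (Fin k ⊕ Fin t)}
    {v : (Fin k ⊕ Fin k) ⊕ Fin t} (h : lab v ∈ ε ↔ lab v ∈ ε') :
    rowOf ρ ρ' ε v = rowOf ρ ρ' ε' v := by
  rcases v with (s | s) | s <;> simp only [rowOf, lab] at h ⊢ <;> simp only [h]

/-- joint injectivity -/
structure JI (ρ ρ' : Fin k ⊕ Fin t → Fin n) : Prop where
  i1 : Function.Injective ρ
  i2 : Function.Injective ρ'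
  i3 : ∀ u v, ρ u ≠ ρ' v

theorem ji_of {ρ ρ' : Fin k ⊕ Fin t → Fin n} (h : Function.Injective (Sum.elim ρ ρ')) :
    JI ρ ρ' := by
  refine ⟨fun u v huv => ?_, fun u v huv => ?_, fun u v huv => ?_⟩
  · exact Sum.inl_injective (h (a₁ := Sum.inl u) (a₂ := Sum.inl v) huv)
  · exact Sum.inr_injective (h (a₁ := Sum.inr u) (a₂ := Sum.inr v) huv)
  · exact absurd (h (a₁ := Sum.inl u) (a₂ := Sum.inr v) huv) (by simp)

theorem JI.lab_eq {ρ ρ' : Fin k ⊕ Fin t → Fin n} (h : JI ρ ρ') {u v : Fin k ⊕ Fin t} {a b : Fin n}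
    (ha : a = ρ u ∨ a = ρ' u) (hb : b = ρ v ∨ b = ρ' v) (hab : a = b) : u = v := by
  rcases ha with rfl | rfl <;> rcases hb with rfl | rfl
  · exact h.i1 hab
  · exact absurd hab (h.i3 _ _)
  · exact absurd hab.symm (h.i3 _ _)
  · exact h.i2 hab

theorem rowOf_inj {ρ ρ' : Fin k ⊕ Fin t → Fin n} (h : JI ρ ρ') (ε : Finset (Fin k ⊕ Fin t)) :
    Function.Injective (rowOf ρ ρ' ε) := by
  intro v w hvw
  have h1 : lab v = lab w := h.lab_eq (rowOf_mem ρ ρ' ε v) (rowOf_mem ρ ρ' ε w) hvw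
  rcases v with (s | s) | s <;> rcases w with (s' | s') | s' <;>
    simp only [lab, Sum.inl.injEq, Sum.inr.injEq, reduceCtorEq] at h1
  · rw [h1]
  · subst h1
    simp only [rowOf] at hvw
    split_ifs at hvw
    · exact absurd hvw.symm (h.i3 _ _)
    · exact absurd hvw (h.i3 _ _)
  · subst h1
    simp only [rowOf] at hvw
    split_ifs at hvw
    · exact absurd hvw (h.i3 _ _)
    · exact absurd hvw.symm (h.i3 _ _)
  · rw [h1]
  · rw [h1]

/-- the placements of the cube -/
def cE (e1 : (Fin k ⊕ Fin k) ⊕ Fin t → Fin m) (c1 : Fin m → Fin n)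
    (ρ ρ' : Fin k ⊕ Fin t → Fin n) (ε : Finset (Fin k ⊕ Fin t)) : Fin m → Fin n :=
  fun j => if h : ∃ v, e1 v = j then rowOf ρ ρ' ε h.choose else c1 j

/-- the data of the cube -/
structure Cube (e1 : (Fin k ⊕ Fin k) ⊕ Fin t → Fin m) (c1 : Fin m → Fin n)
    (ρ ρ' : Fin k ⊕ Fin t → Fin n) : Prop where
  ji : JI ρ ρ'
  e1i : Function.Injective e1
  c1i : ∀ j j', (∀ v, e1 v ≠ j) → (∀ v, e1 v ≠ j') → c1 j = c1 j' → j = j'
  c1o : ∀ j, (∀ v, e1 v ≠ j) → ∀ u, c1 j ≠ ρ u ∧ c1 j ≠ ρ' u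

variable {e1 : (Fin k ⊕ Fin k) ⊕ Fin t → Fin m} {c1 : Fin m → Fin n}
  {ρ ρ' : Fin k ⊕ Fin t → Fin n}

theorem Cube.ap (h : Cube e1 c1 ρ ρ') (ε : Finset (Fin k ⊕ Fin t))
    (v : (Fin k ⊕ Fin k) ⊕ Fin t) : cE e1 c1 ρ ρ' ε (e1 v) = rowOf ρ ρ' ε v := by
  have h1 : ∃ w, e1 w = e1 v := ⟨v, rfl⟩
  unfold cE
  rw [dif_pos h1, h.e1i h1.choose_spec]

theorem cE_out (e1 : (Fin k ⊕ Fin k) ⊕ Fin t → Fin m) (c1 : Fin m → Fin n)
    (ρ ρ' : Fin k ⊕ Fin t → Fin n) (ε : Finset (Fin k ⊕ Fin t)) {j : Fin m}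
    (hj : ∀ v, e1 v ≠ j) : cE e1 c1 ρ ρ' ε j = c1 j := by
  unfold cE
  rw [dif_neg]
  rintro ⟨v, hv⟩
  exact hj v hv

theorem Cube.inj (h : Cube e1 c1 ρ ρ') (ε : Finset (Fin k ⊕ Fin t)) :
    Function.Injective (cE e1 c1 ρ ρ' ε) := by
  have key : ∀ v j', (∀ v, e1 v ≠ j') → rowOf ρ ρ' ε v ≠ c1 j' := by
    intro v j' hj' h1
    rcases rowOf_mem ρ ρ' ε v with h2 | h2
    · exact (h.c1o j' hj' _).1 (h1.symm.trans h2)
    · exact (h.c1o j' hj' _).2 (h1.symm.trans h2)
  intro j j' hjj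
  by_cases hj : ∃ v, e1 v = j
  · obtain ⟨v, rfl⟩ := hj
    rw [h.ap] at hjj
    by_cases hj' : ∃ v, e1 v = j'
    · obtain ⟨v', rfl⟩ := hj'
      rw [h.ap] at hjj
      rw [rowOf_inj h.ji ε hjj]
    · push Not at hj'
      rw [cE_out _ _ _ _ _ hj'] at hjj
      exact absurd hjj (key v j' hj')
  · push Not at hj
    rw [cE_out _ _ _ _ _ hj] at hjj
    by_cases hj' : ∃ v, e1 v = j'
    · obtain ⟨v', rfl⟩ := hj'
      rw [h.ap] at hjj
      exact absurd hjj.symm (key v' j hj)
    · push Not at hj'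
      rw [cE_out _ _ _ _ _ hj'] at hjj
      exact h.c1i _ _ hj hj' hjj

/-- rows outside the pair of a label do not depend on the label -/
theorem Cube.tog (h : Cube e1 c1 ρ ρ') (ε : Finset (Fin k ⊕ Fin t)) (u : Fin k ⊕ Fin t) {a : Fin n}
    (ha : a ≠ ρ u) (ha' : a ≠ ρ' u) (j : Fin m) :
    cE e1 c1 ρ ρ' (symmDiff ε {u}) j = a ↔ cE e1 c1 ρ ρ' ε j = a := by
  by_cases hj : ∃ v, e1 v = j
  · obtain ⟨v, rfl⟩ := hj
    rw [h.ap, h.ap]
    by_cases hv : lab v = u
    · subst hv
      constructor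
      · intro h1
        rcases rowOf_mem ρ ρ' (symmDiff ε {lab v}) v with h2 | h2
        · exact absurd (h1.symm.trans h2) ha
        · exact absurd (h1.symm.trans h2) ha'
      · intro h1
        rcases rowOf_mem ρ ρ' ε v with h2 | h2
        · exact absurd (h1.symm.trans h2) ha
        · exact absurd (h1.symm.trans h2) ha'
    · rw [rowOf_congr ρ ρ' (ε := symmDiff ε {u}) (ε' := ε)]
      simp [Finset.mem_symmDiff, hv]
  · push Not at hj
    rw [cE_out _ _ _ _ _ hj, cE_out _ _ _ _ _ hj]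

theorem Cube.tog_okr (h : Cube e1 c1 ρ ρ') (ε : Finset (Fin k ⊕ Fin t)) (u : Fin k ⊕ Fin t)
    {a : Fin n} (ha : a ≠ ρ u) (ha' : a ≠ ρ' u) (s : St m) :
    okr (cE e1 c1 ρ ρ' (symmDiff ε {u})) a s ↔ okr (cE e1 c1 ρ ρ' ε) a s := by
  rcases s with _ | _ | j
  · exact Iff.rfl
  · exact exists_congr fun j => h.tog ε u ha ha' j
  · exact h.tog ε u ha ha' j

/-- polynomials of small degree are killed -/
theorem Cube.kill (h : Cube e1 c1 ρ ρ') (q : Poly n m) (hq : q = 0 ∨ q.totalDegree < k + t) :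
    ∑ ε : Finset (Fin k ⊕ Fin t), (-1 : ℂ) ^ ε.card *
      MvPolynomial.eval (pt (cE e1 c1 ρ ρ' ε)) q = 0 := by
  rcases hq with rfl | hq
  · simp
  simp only [MvPolynomial.eval_eq', Finset.mul_sum]
  rw [Finset.sum_comm]
  refine Finset.sum_eq_zero fun d hd => ?_
  have h1 : d.support.card < k + t := by
    refine lt_of_le_of_lt ?_ hq
    refine le_trans ?_ (MvPolynomial.le_totalDegree hd)
    rw [Finsupp.sum, Finset.card_eq_sum_ones]
    exact Finset.sum_le_sum fun p hp => Nat.one_le_iff_ne_zero.2 (Finsupp.mem_support_iff.1 hp)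
  obtain ⟨u, hu⟩ : ∃ u, ∀ p ∈ d.support, p.1 ≠ ρ u ∧ p.1 ≠ ρ' u := by
    by_contra hcon
    push Not at hcon
    have h2 : ∀ u, ∃ p ∈ d.support, p.1 = ρ u ∨ p.1 = ρ' u := by
      intro u
      obtain ⟨p, hp, hp2⟩ := hcon u
      refine ⟨p, hp, ?_⟩
      by_cases h3 : p.1 = ρ u
      · exact Or.inl h3
      · exact Or.inr (hp2 h3)
    choose p hp hp2 using h2
    have h3 : Function.Injective p := by
      intro u v huv
      exact h.ji.lab_eq (hp2 u) (hp2 v) (by rw [huv])
    have h4 : (Finset.univ.image p).card ≤ d.support.card := by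
      apply Finset.card_le_card
      intro x hx
      obtain ⟨u, -, rfl⟩ := Finset.mem_image.1 hx
      exact hp u
    rw [Finset.card_image_of_injective _ h3, Finset.card_univ, Fintype.card_sum,
      Fintype.card_fin, Fintype.card_fin] at h4
    omega
  refine toggle_sum (fun ε => MvPolynomial.coeff d q * ∏ i, pt (cE e1 c1 ρ ρ' ε) i ^ d i) u
    fun ε => ?_
  congr 1
  refine Finset.prod_congr rfl fun p _ => ?_
  by_cases hp : p ∈ d.support
  · have h5 := h.tog ε u (hu p hp).1 (hu p hp).2 p.2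
    unfold pt
    simp only [h5]
  · rw [Finsupp.notMem_support_iff.1 hp, pow_zero, pow_zero]

/-! ### The rows and columns of the objects -/

def rE (ρ ρ' : Fin k ⊕ Fin t → Fin n) (ε : Finset (Fin k ⊕ Fin t)) : Fin k ⊕ Fin t → Fin n :=
  fun u => if u ∈ ε then ρ' u else ρ u

def xE (x y : Fin k → Fin m) (δ : Finset (Fin k)) : Fin k → Fin m :=
  fun s => if s ∈ δ then y s else x s

theorem rE_mem (ρ ρ' : Fin k ⊕ Fin t → Fin n) (ε : Finset (Fin k ⊕ Fin t)) (u : Fin k ⊕ Fin t) :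
    rE ρ ρ' ε u = ρ u ∨ rE ρ ρ' ε u = ρ' u := by
  unfold rE
  split_ifs
  · exact Or.inr rfl
  · exact Or.inl rfl

theorem rE_inj (h : JI ρ ρ') (ε : Finset (Fin k ⊕ Fin t)) : Function.Injective (rE ρ ρ' ε) :=
  fun _ _ huv => h.lab_eq (rE_mem ρ ρ' ε _) (rE_mem ρ ρ' ε _) huv

/-- all objects of `α` are compatible with the placement -/
def OK (c : Fin m → Fin n) (α : Cf n m) : Prop := ∀ a, okr c a (α a)

theorem case1 (h : Cube e1 c1 ρ ρ') (ε ε0 : Finset (Fin k ⊕ Fin t)) (δ0 : Finset (Fin k)) :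
    OK (cE e1 c1 ρ ρ' ε) (cf (rE ρ ρ' ε0) (xE (fun s => e1 (Sum.inl (Sum.inl s)))
      (fun s => e1 (Sum.inl (Sum.inr s))) δ0)) ↔
    ε = symmDiff ε0 (δ0.map ⟨Sum.inl, Sum.inl_injective⟩) := by
  have hne : ∀ u, ρ u ≠ ρ' u := fun u => h.ji.i3 u u
  have hrow : OK (cE e1 c1 ρ ρ' ε) (cf (rE ρ ρ' ε0) (xE (fun s => e1 (Sum.inl (Sum.inl s)))
      (fun s => e1 (Sum.inl (Sum.inr s))) δ0)) ↔ ∀ u, okr (cE e1 c1 ρ ρ' ε) (rE ρ ρ' ε0 u)
        (stt (xE (fun s => e1 (Sum.inl (Sum.inl s))) (fun s => e1 (Sum.inl (Sum.inr s))) δ0) u) := by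
    constructor
    · intro h1 u
      have := h1 (rE ρ ρ' ε0 u)
      rwa [cf_apply (rE_inj h.ji ε0)] at this
    · intro h1 a
      by_cases ha : ∃ u, rE ρ ρ' ε0 u = a
      · obtain ⟨u, rfl⟩ := ha
        rw [cf_apply (rE_inj h.ji ε0)]
        exact h1 u
      · push Not at ha
        rw [cf_none ha]
        trivial
  have hmem : ∀ u, (u ∈ symmDiff ε0 (δ0.map ⟨Sum.inl, Sum.inl_injective⟩)) ↔
      ((u ∈ ε0) ∧ ¬ (∃ s ∈ δ0, Sum.inl s = u)) ∨ ((∃ s ∈ δ0, Sum.inl s = u) ∧ u ∉ ε0) := by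
    intro u
    simp only [Finset.mem_symmDiff, Finset.mem_map, Function.Embedding.coeFn_mk]
  rw [hrow, Finset.ext_iff]
  refine forall_congr' fun u => ?_
  rw [hmem]
  rcases u with s | s
  · simp only [stt, okr, Sum.inl.injEq, exists_eq_right]
    unfold xE
    split_ifs with hs
    · rw [h.ap]
      simp only [rowOf, rE, hs, not_true_eq_false, and_false, false_or, true_and]
      by_cases h1 : Sum.inl s ∈ ε <;> by_cases h2 : (Sum.inl s : Fin k ⊕ Fin t) ∈ ε0 <;>
        simp [h1, h2, hne (Sum.inl s), (hne (Sum.inl s)).symm]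
    · rw [h.ap]
      simp only [rowOf, rE, hs, not_false_eq_true, and_true, false_and, or_false]
      by_cases h1 : Sum.inl s ∈ ε <;> by_cases h2 : (Sum.inl s : Fin k ⊕ Fin t) ∈ ε0 <;>
        simp [h1, h2, hne (Sum.inl s), (hne (Sum.inl s)).symm]
  · simp only [stt, okr, reduceCtorEq, and_false, exists_false, not_false_eq_true, and_true,
      false_and, or_false]
    have h3 : (∃ j, cE e1 c1 ρ ρ' ε j = rE ρ ρ' ε0 (Sum.inr s)) ↔
        rE ρ ρ' ε (Sum.inr s) = rE ρ ρ' ε0 (Sum.inr s) := by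
      constructor
      · rintro ⟨j, hj⟩
        by_cases hv : ∃ v, e1 v = j
        · obtain ⟨v, rfl⟩ := hv
          rw [h.ap] at hj
          have h4 : lab v = Sum.inr s :=
            h.ji.lab_eq (rowOf_mem ρ ρ' ε v) (rE_mem ρ ρ' ε0 (Sum.inr s)) hj
          have h5 : v = Sum.inr s := by
            rcases v with (v | v) | v <;> simp [lab] at h4
            rw [h4]
          rw [h5] at hj
          exact hj
        · push Not at hv
          rw [cE_out _ _ _ _ _ hv] at hj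
          rcases rE_mem ρ ρ' ε0 (Sum.inr s) with h4 | h4
          · exact absurd (hj.trans h4) (h.c1o j hv _).1
          · exact absurd (hj.trans h4) (h.c1o j hv _).2
      · intro h4
        exact ⟨e1 (Sum.inr s), by rw [h.ap]; exact h4⟩
    rw [h3]
    simp only [rE]
    by_cases h1 : Sum.inr s ∈ ε <;> by_cases h2 : (Sum.inr s : Fin k ⊕ Fin t) ∈ ε0 <;>
      simp [h1, h2, hne (Sum.inr s), (hne (Sum.inr s)).symm]

/-- the rows with a rook -/
def rl (α : Cf n m) : Finset (Fin n) := Finset.univ.filter fun a => ∃ x, α a = some (some x)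

theorem inv_sum (h : Cube e1 c1 ρ ρ') (α : Cf n m) (u : Fin k ⊕ Fin t)
    (h1 : ∀ ε, okr (cE e1 c1 ρ ρ' (symmDiff ε {u})) (ρ u) (α (ρ u)) ↔
      okr (cE e1 c1 ρ ρ' ε) (ρ u) (α (ρ u)))
    (h2 : ∀ ε, okr (cE e1 c1 ρ ρ' (symmDiff ε {u})) (ρ' u) (α (ρ' u)) ↔
      okr (cE e1 c1 ρ ρ' ε) (ρ' u) (α (ρ' u))) :
    ∑ ε : Finset (Fin k ⊕ Fin t), (-1 : ℂ) ^ ε.card *
      (if OK (cE e1 c1 ρ ρ' ε) α then 1 else 0) = 0 := by
  refine toggle_sum (fun ε => if OK (cE e1 c1 ρ ρ' ε) α then (1 : ℂ) else 0) u fun ε => ?_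
  have h3 : OK (cE e1 c1 ρ ρ' (symmDiff ε {u})) α ↔ OK (cE e1 c1 ρ ρ' ε) α := by
    refine forall_congr' fun a => ?_
    by_cases ha : a = ρ u
    · rw [ha]; exact h1 ε
    · by_cases ha' : a = ρ' u
      · rw [ha']; exact h2 ε
      · exact h.tog_okr ε u ha ha' _
  simp only [h3]

theorem case2 (h : Cube e1 c1 ρ ρ') (α : Cf n m) (hd : dd α = k + t) (hr : (rl α).card ≤ k)
    (hα : ∀ (ε0 : Finset (Fin k ⊕ Fin t)) (δ0 : Finset (Fin k)),
      α ≠ cf (rE ρ ρ' ε0) (xE (fun s => e1 (Sum.inl (Sum.inl s)))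
      (fun s => e1 (Sum.inl (Sum.inr s))) δ0)) :
    ∑ ε : Finset (Fin k ⊕ Fin t), (-1 : ℂ) ^ ε.card *
      (if OK (cE e1 c1 ρ ρ' ε) α then 1 else 0) = 0 := by
  by_contra hsum
  have ha : ∀ u, α (ρ u) ≠ none ∨ α (ρ' u) ≠ none := by
    intro u
    by_contra hcon
    push Not at hcon
    apply hsum
    refine inv_sum h α u (fun ε => ?_) (fun ε => ?_)
    · rw [hcon.1]; exact Iff.rfl
    · rw [hcon.2]; exact Iff.rfl
  obtain ⟨ε0, hε0⟩ : ∃ ε0 : Finset (Fin k ⊕ Fin t), ∀ u, u ∈ ε0 ↔ α (ρ u) = none :=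
    ⟨Finset.univ.filter (fun u => α (ρ u) = none), fun u => by simp⟩
  have hri := rE_inj h.ji ε0
  have hrn : ∀ u, α (rE ρ ρ' ε0 u) ≠ none := by
    intro u
    unfold rE
    split_ifs with hu
    · exact (ha u).resolve_left (fun h1 => h1 ((hε0 u).1 hu))
    · exact fun h1 => hu ((hε0 u).2 h1)
  have himg : Finset.univ.image (rE ρ ρ' ε0) = supp α := by
    apply Finset.eq_of_subset_of_card_le
    · intro a ha
      obtain ⟨u, -, rfl⟩ := Finset.mem_image.1 ha
      exact Finset.mem_filter.2 ⟨Finset.mem_univ _, hrn u⟩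
    · rw [Finset.card_image_of_injective _ hri, Finset.card_univ, Fintype.card_sum,
        Fintype.card_fin, Fintype.card_fin, ← hd]
      exact le_rfl
  have hsupp : ∀ a, α a ≠ none → ∃ u, rE ρ ρ' ε0 u = a := by
    intro a h1
    have h2 : a ∈ Finset.univ.image (rE ρ ρ' ε0) := by
      rw [himg]
      exact Finset.mem_filter.2 ⟨Finset.mem_univ _, h1⟩
    obtain ⟨u, -, hu⟩ := Finset.mem_image.1 h2
    exact ⟨u, hu⟩
  -- the other row of the pair is empty
  have hother : ∀ u a, (a = ρ u ∨ a = ρ' u) → a ≠ rE ρ ρ' ε0 u → α a = none := by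
    intro u a hau hne
    by_contra h1
    obtain ⟨v, hv⟩ := hsupp a h1
    have h2 : v = u := h.ji.lab_eq (rE_mem ρ ρ' ε0 v) hau hv
    exact hne (by rw [← hv, h2])
  -- no invariance
  have hinv : ∀ u, ¬ ∀ ε, okr (cE e1 c1 ρ ρ' (symmDiff ε {u})) (rE ρ ρ' ε0 u) (α (rE ρ ρ' ε0 u)) ↔
      okr (cE e1 c1 ρ ρ' ε) (rE ρ ρ' ε0 u) (α (rE ρ ρ' ε0 u)) := by
    intro u hu
    apply hsum
    refine inv_sum h α u (fun ε => ?_) (fun ε => ?_)
    · by_cases h1 : ρ u = rE ρ ρ' ε0 u
      · rw [h1]; exact hu ε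
      · rw [hother u (ρ u) (Or.inl rfl) h1]; exact Iff.rfl
    · by_cases h1 : ρ' u = rE ρ ρ' ε0 u
      · rw [h1]; exact hu ε
      · rw [hother u (ρ' u) (Or.inr rfl) h1]; exact Iff.rfl
  -- the rooks
  have hrook : ∀ s : Fin k, α (rE ρ ρ' ε0 (Sum.inl s)) = some (some (e1 (Sum.inl (Sum.inl s)))) ∨
      α (rE ρ ρ' ε0 (Sum.inl s)) = some (some (e1 (Sum.inl (Sum.inr s)))) := by
    intro s
    -- the columns of the pair
    have hcol : ∀ ε, ∃ v, (v = Sum.inl (Sum.inl s) ∨ v = Sum.inl (Sum.inr s)) ∧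
        cE e1 c1 ρ ρ' ε (e1 v) = rE ρ ρ' ε0 (Sum.inl s) := by
      intro ε
      have h1 : rowOf ρ ρ' ε (Sum.inl (Sum.inl s)) = rE ρ ρ' ε0 (Sum.inl s) ∨
          rowOf ρ ρ' ε (Sum.inl (Sum.inr s)) = rE ρ ρ' ε0 (Sum.inl s) := by
        simp only [rowOf]
        rcases rE_mem ρ ρ' ε0 (Sum.inl s) with h2 | h2 <;> rw [h2] <;> split_ifs <;> simp
      rcases h1 with h1 | h1
      · exact ⟨_, Or.inl rfl, by rw [h.ap]; exact h1⟩
      · exact ⟨_, Or.inr rfl, by rw [h.ap]; exact h1⟩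
    rcases hst : α (rE ρ ρ' ε0 (Sum.inl s)) with _ | _ | j
    · exact absurd hst (hrn _)
    · exfalso
      apply hinv (Sum.inl s)
      intro ε
      rw [hst]
      obtain ⟨v, -, hv⟩ := hcol ε
      obtain ⟨v', -, hv'⟩ := hcol (symmDiff ε {Sum.inl s})
      exact ⟨fun _ => ⟨_, hv⟩, fun _ => ⟨_, hv'⟩⟩
    · by_contra hj
      apply hsum
      refine Finset.sum_eq_zero fun ε _ => ?_
      rw [if_neg, mul_zero]
      intro hok
      have h1 := hok (rE ρ ρ' ε0 (Sum.inl s))
      rw [hst] at h1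
      obtain ⟨v, hv, hv2⟩ := hcol ε
      have h2 : j = e1 v := h.inj ε (Eq.trans h1 hv2.symm)
      apply hj
      rcases hv with rfl | rfl
      · exact Or.inl (by rw [h2])
      · exact Or.inr (by rw [h2])
  -- the marks
  have hmark : ∀ s : Fin t, α (rE ρ ρ' ε0 (Sum.inr s)) = some none := by
    intro s
    rcases hst : α (rE ρ ρ' ε0 (Sum.inr s)) with _ | _ | j
    · exact absurd hst (hrn _)
    · rfl
    · exfalso
      have h1 : ((insert (Sum.inr s) (Finset.univ.map ⟨Sum.inl, Sum.inl_injective⟩) :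
          Finset (Fin k ⊕ Fin t)).image (rE ρ ρ' ε0)) ⊆ rl α := by
        intro a ha
        obtain ⟨u, hu, rfl⟩ := Finset.mem_image.1 ha
        refine Finset.mem_filter.2 ⟨Finset.mem_univ _, ?_⟩
        rcases Finset.mem_insert.1 hu with rfl | hu
        · exact ⟨j, hst⟩
        · obtain ⟨s', -, rfl⟩ := Finset.mem_map.1 hu
          rcases hrook s' with h2 | h2
          · exact ⟨_, h2⟩
          · exact ⟨_, h2⟩
      have h2 := Finset.card_le_card h1
      rw [Finset.card_image_of_injective _ hri, Finset.card_insert_of_notMem (by simp),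
        Finset.card_map, Finset.card_univ, Fintype.card_fin] at h2
      omega
  obtain ⟨δ0, hδ0⟩ : ∃ δ0 : Finset (Fin k), ∀ s, s ∈ δ0 ↔
      α (rE ρ ρ' ε0 (Sum.inl s)) = some (some (e1 (Sum.inl (Sum.inr s)))) :=
    ⟨Finset.univ.filter (fun s => α (rE ρ ρ' ε0 (Sum.inl s)) =
      some (some (e1 (Sum.inl (Sum.inr s))))), fun s => by simp⟩
  apply hα ε0 δ0
  funext a
  by_cases h1 : ∃ u, rE ρ ρ' ε0 u = a
  · obtain ⟨u, rfl⟩ := h1
    rw [cf_apply hri]
    rcases u with s | s
    · simp only [stt, xE]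
      split_ifs with hs
      · exact (hδ0 s).1 hs
      · exact (hrook s).resolve_right (fun h2 => hs ((hδ0 s).2 h2))
    · exact hmark s
  · have h2 : α a = none := by
      by_contra h3
      exact h1 (hsupp a h3)
    push Not at h1
    rw [h2, cf_none h1]

/-- the configurations of the cube -/
def phi (e1 : (Fin k ⊕ Fin k) ⊕ Fin t → Fin m) (ρ ρ' : Fin k ⊕ Fin t → Fin n)
    (p : Finset (Fin k ⊕ Fin t) × Finset (Fin k)) : Cf n m :=
  cf (rE ρ ρ' p.1) (xE (fun s => e1 (Sum.inl (Sum.inl s))) (fun s => e1 (Sum.inl (Sum.inr s))) p.2)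

theorem phi_inj (h : Cube e1 c1 ρ ρ') : Function.Injective (phi (k := k) (t := t) e1 ρ ρ') := by
  rintro ⟨ε, δ⟩ ⟨ε', δ'⟩ heq
  have key : ∀ (ε : Finset (Fin k ⊕ Fin t)) (δ : Finset (Fin k)) (u : Fin k ⊕ Fin t),
      u ∈ ε ↔ phi e1 ρ ρ' (ε, δ) (ρ' u) ≠ none := by
    intro ε δ u
    constructor
    · intro hu
      have h1 : rE ρ ρ' ε u = ρ' u := by unfold rE; rw [if_pos hu]
      unfold phi
      rw [← h1, cf_apply (rE_inj h.ji ε)]
      exact stt_ne _ u
    · intro h1
      by_contra hu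
      apply h1
      unfold phi
      apply cf_none
      intro v hv
      have h2 : v = u := h.ji.lab_eq (rE_mem ρ ρ' ε v) (Or.inr rfl) hv
      subst h2
      simp only [rE, if_neg hu] at hv
      exact h.ji.i3 _ _ hv
  have hε : ε = ε' := by
    ext u
    rw [key ε δ u, key ε' δ' u, heq]
  subst hε
  have hδ : δ = δ' := by
    ext s
    have h1 := congrFun heq (rE ρ ρ' ε (Sum.inl s))
    unfold phi at h1
    rw [cf_apply (rE_inj h.ji ε), cf_apply (rE_inj h.ji ε)] at h1
    simp only [stt, Option.some.injEq, xE] at h1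
    have h2 : ∀ s : Fin k, e1 (Sum.inl (Sum.inl s)) ≠ e1 (Sum.inl (Sum.inr s)) :=
      fun s h2 => by simpa using h.e1i h2
    by_cases h3 : s ∈ δ <;> by_cases h4 : s ∈ δ'
    · exact ⟨fun _ => h4, fun _ => h3⟩
    · rw [if_pos h3, if_neg h4] at h1
      exact absurd h1.symm (h2 s)
    · rw [if_neg h3, if_pos h4] at h1
      exact absurd h1 (h2 s)
    · exact ⟨fun h5 => absurd h5 h3, fun h5 => absurd h5 h4⟩
  rw [hδ]

theorem cube_zero (h : Cube e1 c1 ρ ρ') (g : Fn n m)
    (hg : ∀ α, g α ≠ 0 → dd α = k + t ∧ (rl α).card ≤ k) (q : Poly n m)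
    (hq : q = 0 ∨ q.totalDegree < k + t)
    (hv : ∀ c : Fin m → Fin n, Function.Injective c →
      ∑ α, g α * (if OK c α then 1 else 0) + MvPolynomial.eval (pt c) q = 0) :
    ∑ p : Finset (Fin k ⊕ Fin t) × Finset (Fin k),
      (-1 : ℂ) ^ p.1.card * (-1 : ℂ) ^ p.2.card * g (phi e1 ρ ρ' p) = 0 := by
  have h1 : ∑ ε : Finset (Fin k ⊕ Fin t), (-1 : ℂ) ^ ε.card *
      (∑ α, g α * (if OK (cE e1 c1 ρ ρ' ε) α then 1 else 0) +
        MvPolynomial.eval (pt (cE e1 c1 ρ ρ' ε)) q) = 0 :=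
    Finset.sum_eq_zero fun ε _ => by rw [hv _ (h.inj ε), mul_zero]
  simp only [mul_add, Finset.sum_add_distrib] at h1
  rw [h.kill q hq, add_zero] at h1
  simp only [Finset.mul_sum] at h1
  rw [Finset.sum_comm] at h1
  rw [← h1]
  refine Finset.sum_of_injOn (phi e1 ρ ρ') ((phi_inj h).injOn) (fun _ _ => Finset.mem_coe.2 (Finset.mem_univ _)) ?_ ?_
  · intro α _ hα
    by_cases h0 : g α = 0
    · simp [h0]
    · obtain ⟨h2, h3⟩ := hg α h0
      have h4 := case2 h α h2 h3 (fun ε0 δ0 h5 => hα ⟨(ε0, δ0), Finset.mem_coe.2 (Finset.mem_univ _), h5.symm⟩)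
      have h5 : ∑ ε : Finset (Fin k ⊕ Fin t), (-1 : ℂ) ^ ε.card *
          (g α * (if OK (cE e1 c1 ρ ρ' ε) α then 1 else 0)) =
          g α * ∑ ε : Finset (Fin k ⊕ Fin t), (-1 : ℂ) ^ ε.card *
          (if OK (cE e1 c1 ρ ρ' ε) α then 1 else 0) := by
        rw [Finset.mul_sum]
        exact Finset.sum_congr rfl fun ε _ => by ring
      rw [h5, h4, mul_zero]
  · rintro ⟨ε0, δ0⟩ _
    have h2 : ∀ ε, OK (cE e1 c1 ρ ρ' ε) (phi e1 ρ ρ' (ε0, δ0)) ↔
        ε = symmDiff ε0 (δ0.map ⟨Sum.inl, Sum.inl_injective⟩) := fun ε => case1 h ε ε0 δ0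
    simp only [h2]
    rw [Finset.sum_eq_single (symmDiff ε0 (δ0.map ⟨Sum.inl, Sum.inl_injective⟩))]
    · rw [if_pos rfl, sgn_symmDiff, Finset.card_map, mul_one]
    · intro ε _ hε
      rw [if_neg hε, mul_zero, mul_zero]
    · intro h3
      exact absurd (Finset.mem_univ _) h3

/-- existence of the data of the cube -/
theorem exists_cube (hkm : 2 * k + t ≤ m) (hmn : m + t ≤ n) (hji : JI ρ ρ')
    (x y : Fin k → Fin m) (hxy : Function.Injective (Sum.elim x y)) :
    ∃ (e1 : (Fin k ⊕ Fin k) ⊕ Fin t → Fin m) (c1 : Fin m → Fin n), Cube e1 c1 ρ ρ' ∧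
      (∀ s, e1 (Sum.inl (Sum.inl s)) = x s) ∧ ∀ s, e1 (Sum.inl (Sum.inr s)) = y s := by
  obtain ⟨z⟩ : Nonempty (Fin t ↪ {j : Fin m // j ∉ Finset.univ.image (Sum.elim x y)}) := by
    apply Function.Embedding.nonempty_of_card_le
    rw [Fintype.card_fin, Fintype.card_subtype_compl, Fintype.card_fin, Fintype.card_coe,
      Finset.card_image_of_injective _ hxy, Finset.card_univ, Fintype.card_sum, Fintype.card_fin]
    omega
  have hz : ∀ r v, Sum.elim x y v ≠ (z r).1 := by
    intro r v h1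
    exact (z r).2 (Finset.mem_image.2 ⟨v, Finset.mem_univ _, h1⟩)
  let e1 : (Fin k ⊕ Fin k) ⊕ Fin t → Fin m := Sum.elim (Sum.elim x y) (fun r => (z r).1)
  have he1 : Function.Injective e1 := by
    rintro (v | r) (v' | r') h1
    · rw [hxy h1]
    · exact absurd h1 (hz r' v)
    · exact absurd h1.symm (hz r v')
    · rw [z.injective (Subtype.ext h1)]
  obtain ⟨c⟩ : Nonempty ({j : Fin m // j ∉ Finset.univ.image e1} ↪
      {a : Fin n // a ∉ Finset.univ.image (Sum.elim ρ ρ')}) := by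
    apply Function.Embedding.nonempty_of_card_le
    have hρ : Function.Injective (Sum.elim ρ ρ') := by
      rintro (u | u) (v | v) h1
      · rw [hji.i1 h1]
      · exact absurd h1 (hji.i3 _ _)
      · exact absurd h1.symm (hji.i3 _ _)
      · rw [hji.i2 h1]
    rw [Fintype.card_subtype_compl, Fintype.card_subtype_compl, Fintype.card_fin, Fintype.card_fin,
      Fintype.card_coe, Fintype.card_coe,
      Finset.card_image_of_injective _ he1, Finset.card_image_of_injective _ hρ, Finset.card_univ,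
      Finset.card_univ]
    simp only [Fintype.card_sum, Fintype.card_fin]
    omega
  have hmem : ∀ j : Fin m, (∀ v, e1 v ≠ j) → j ∉ Finset.univ.image e1 := by
    intro j hj h1
    obtain ⟨v, -, hv⟩ := Finset.mem_image.1 h1
    exact hj v hv
  let c1 : Fin m → Fin n := fun j => if h : j ∉ Finset.univ.image e1 then (c ⟨j, h⟩).1
    else ⟨0, by have := j.pos; omega⟩
  have hc1 : ∀ j (hj : ∀ v, e1 v ≠ j), c1 j = (c ⟨j, hmem j hj⟩).1 := by
    intro j hj
    show dite _ _ _ = _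
    rw [dif_pos (hmem j hj)]
  refine ⟨e1, c1, ⟨hji, he1, ?_, ?_⟩, fun _ => rfl, fun _ => rfl⟩
  · intro j j' hj hj' h1
    rw [hc1 j hj, hc1 j' hj'] at h1
    have := c.injective (Subtype.ext h1)
    exact congrArg Subtype.val this
  · intro j hj u
    rw [hc1 j hj]
    have h1 := (c ⟨j, hmem j hj⟩).2
    refine ⟨fun h2 => h1 ?_, fun h2 => h1 ?_⟩
    · exact Finset.mem_image.2 ⟨Sum.inl u, Finset.mem_univ _, h2.symm⟩
    · exact Finset.mem_image.2 ⟨Sum.inr u, Finset.mem_univ _, h2.symm⟩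

theorem gL_zero (hALT : Stmt_ALT) (hkm : 2 * k + 2 * t ≤ m) (hmn : m + t ≤ n) (g : Fn n m)
    (hval : ∀ α, g α ≠ 0 → Valid α) (hpos : PosH g) (hlab : LabH g)
    (hg : ∀ α, g α ≠ 0 → dd α = k + t ∧ (rl α).card ≤ k) (q : Poly n m)
    (hq : q = 0 ∨ q.totalDegree < k + t)
    (hv : ∀ c : Fin m → Fin n, Function.Injective c →
      ∑ α, g α * (if OK c α then 1 else 0) + MvPolynomial.eval (pt c) q = 0)
    (ρ0 : Fin k ⊕ Fin t → Fin n) (x0 : Fin k → Fin m) : gL g ρ0 x0 = 0 := by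
  -- the alternating sums in the columns vanish
  have hG : ∀ x y : Fin k → Fin m, Function.Injective (Sum.elim x y) →
      (fun ρ : Fin k ⊕ Fin t → Fin n => ∑ δ : Finset (Fin k), (-1 : ℂ) ^ δ.card *
        gL g ρ (xE x y δ)) = 0 := by
    intro x y hxy
    refine hALT (Fin k ⊕ Fin t) (Fin n) _ ?_ ?_ ?_ ?_
    · intro ρ hρ
      by_contra hni
      apply hρ
      refine Finset.sum_eq_zero fun δ _ => ?_
      unfold gL
      rw [if_neg hni, mul_zero]
    · intro ρ u
      rw [Finset.sum_comm]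
      refine Finset.sum_eq_zero fun δ _ => ?_
      rw [← Finset.mul_sum, gL_harm_rho hlab, mul_zero]
    · simp only [Fintype.card_sum, Fintype.card_fin]
      omega
    · intro ρ ρ' hρρ
      have hji := ji_of hρρ
      obtain ⟨e1, c1, hc, hx, hy⟩ := exists_cube (by omega) hmn hji x y hxy
      have h1 := cube_zero hc g hg q hq hv
      rw [Fintype.sum_prod_type] at h1
      rw [← h1]
      refine Finset.sum_congr rfl fun ε _ => ?_
      rw [Finset.mul_sum]
      refine Finset.sum_congr rfl fun δ _ => ?_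
      have h2 : (fun u => if u ∈ ε then ρ' u else ρ u) = rE ρ ρ' ε := rfl
      have h3 : gL g (rE ρ ρ' ε) (xE x y δ) = g (phi e1 ρ ρ' (ε, δ)) := by
        unfold gL phi
        rw [if_pos (rE_inj hji ε)]
        simp only [hx, hy]
      rw [h2, h3]
      ring
  have hx : (fun x : Fin k → Fin m => gL g ρ0 x) = 0 := by
    refine hALT (Fin k) (Fin m) _ (fun x hx => gL_inj_x hval hx) (fun x a => gL_harm_x hpos ρ0 x a)
      ?_ ?_
    · simp only [Fintype.card_fin]
      omega
    · intro x y hxy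
      exact congrFun (hG x y hxy) ρ0
  exact congrFun hx x0

end

theorem stmt_THI2 (hRG : Stmt_RG) (hALT : Stmt_ALT) : Stmt_THI2 := by
  intro n m i hmn him g hg hTh
  obtain ⟨⟨hval, hpos, hlab⟩, hS⟩ := hg
  have hS' : ∀ α, g α ≠ 0 → dd α = i ∧ tt α ≤ n - m := hS
  obtain ⟨q, hq, hvan⟩ := (hRG n m (UZ n m m) i (Th n m g)
    (homog_Th fun α h => (hS' α h).1)).1 hTh
  by_contra hne
  obtain ⟨α1, hα1⟩ : ∃ α, g α ≠ 0 := by
    by_contra hcon
    push Not at hcon
    exact hne (funext hcon)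
  obtain ⟨α0, hα0, hmax⟩ := Finset.exists_max_image (Finset.univ.filter (fun α => g α ≠ 0))
    (fun α => (rl α).card) ⟨α1, Finset.mem_filter.2 ⟨Finset.mem_univ _, hα1⟩⟩
  have hα0' : g α0 ≠ 0 := (Finset.mem_filter.1 hα0).2
  have hmax' : ∀ α, g α ≠ 0 → (rl α).card ≤ (rl α0).card :=
    fun α h => hmax α (Finset.mem_filter.2 ⟨Finset.mem_univ _, h⟩)
  -- the marks of `α0`
  have hcard : (rl α0).card + tt α0 = dd α0 := by
    unfold rl tt dd
    rw [← Finset.card_union_of_disjoint]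
    · congr 1
      ext a
      simp only [Finset.mem_union, Finset.mem_filter, Finset.mem_univ, true_and]
      rcases α0 a with _ | _ | j <;> simp
    · rw [Finset.disjoint_left]
      intro a ha hb
      obtain ⟨-, x, hx⟩ := Finset.mem_filter.1 ha
      have := (Finset.mem_filter.1 hb).2
      rw [hx] at this
      simp at this
  obtain ⟨hd0, ht0⟩ := hS' α0 hα0'
  have e1 : Fin (rl α0).card ≃ {a // a ∈ rl α0} := (Finset.equivFin _).symm
  have e2 : Fin (tt α0) ≃ {a // a ∈ Finset.univ.filter fun a => α0 a = some none} :=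
    (Finset.equivFin _).symm
  have hx0 : ∀ s : Fin (rl α0).card, ∃ x, α0 (e1 s).1 = some (some x) := fun s =>
    (Finset.mem_filter.1 (e1 s).2).2
  choose x0 hx0 using hx0
  have hm0 : ∀ s : Fin (tt α0), α0 (e2 s).1 = some none := fun s => (Finset.mem_filter.1 (e2 s).2).2
  let ρ0 : Fin (rl α0).card ⊕ Fin (tt α0) → Fin n := Sum.elim (fun s => (e1 s).1) (fun s => (e2 s).1)
  have hρ0 : Function.Injective ρ0 := by
    rintro (s | s) (s' | s') h1
    · rw [e1.injective (Subtype.ext h1)]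
    · exfalso
      have h2 := hx0 s
      have h3 := hm0 s'
      have h4 : (e1 s).1 = (e2 s').1 := h1
      rw [h4, h3] at h2
      simp at h2
    · exfalso
      have h2 := hx0 s'
      have h3 := hm0 s
      have h4 : (e2 s).1 = (e1 s').1 := h1
      rw [← h4, h3] at h2
      simp at h2
    · rw [e2.injective (Subtype.ext h1)]
  have hcf : cf ρ0 x0 = α0 := by
    funext a
    rcases hst : α0 a with _ | _ | j
    · apply cf_none
      rintro (s | s) h1
      · have := hx0 s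
        have h4 : (e1 s).1 = a := h1
        rw [h4, hst] at this
        simp at this
      · have := hm0 s
        have h4 : (e2 s).1 = a := h1
        rw [h4, hst] at this
        simp at this
    · obtain ⟨s, hs⟩ := e2.surjective ⟨a, Finset.mem_filter.2 ⟨Finset.mem_univ _, hst⟩⟩
      have h4 : ρ0 (Sum.inr s) = a := congrArg Subtype.val hs
      rw [← h4, cf_apply hρ0]
      rfl
    · obtain ⟨s, hs⟩ := e1.surjective ⟨a, Finset.mem_filter.2 ⟨Finset.mem_univ _, j, hst⟩⟩
      have h4 : ρ0 (Sum.inl s) = a := congrArg Subtype.val hs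
      have h5 := hx0 s
      have h6 : (e1 s).1 = a := h4
      rw [h6, hst] at h5
      rw [← h4, cf_apply hρ0]
      exact h5.symm
  have hz := gL_zero (k := (rl α0).card) (t := tt α0) hALT (by omega) (by omega) g hval hpos
    (hlab rfl) (fun α h => ⟨by rw [hcard, hd0]; exact (hS' α h).1, hmax' α h⟩) q
    (by rw [hcard, hd0]; exact hq) (by
      intro c hc
      have h1 := hvan (pt c) (pt_mem hc)
      rw [map_add, eval_Th hc] at h1
      refine Eq.trans ?_ h1
      congr 1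
      refine Finset.sum_congr rfl fun α _ => ?_
      by_cases h2 : OK c α
      · rw [if_pos h2, if_pos (show ∀ a, okr c a (α a) from h2)]
      · rw [if_neg h2, if_neg (show ¬ ∀ a, okr c a (α a) from h2)]) ρ0 x0
  unfold gL at hz
  rw [if_pos hρ0, hcf] at hz
  exact hα0' hz

end Pool.RookLC.helper67
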