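import Pool.Agent.Work.MP_6f78fb_rk.Interface

/-!
# Block TRA: the transpose of FIN
-/

open scoped BigOperators TensorProduct
open Classical

noncomputable section

namespace Pool.RookLC.helper67

open Pool.RookLC

section

variable {n m : ℕ}

/-- valid and unmarked -/
def Vu (α : Cf n m) : Prop := Valid α ∧ tt α = 0

theorem tt_zero {α : Cf n m} : tt α = 0 ↔ ∀ a, α a ≠ some none := by
  unfold tt
  rw [Finset.card_eq_zero, Finset.filter_eq_empty_iff]
  simp

theorem mem_cols {α : Cf n m} {j : Fin m} : j ∈ cols α ↔ ∃ a, α a = some (some j) := by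
  unfold cols
  simp

/-- the transpose -/
def tr (α : Cf n m) : Cf m n :=
  fun j => if h : ∃ a, α a = some (some j) then some (some h.choose) else none

theorem tr_eq {α : Cf n m} (hα : Valid α) {a : Fin n} {j : Fin m} :
    tr α j = some (some a) ↔ α a = some (some j) := by
  unfold tr
  constructor
  · intro h
    split_ifs at h with h1
    simp only [Option.some.injEq] at h
    have := h1.choose_spec
    rwa [h] at this
  · intro h
    have h1 : ∃ a, α a = some (some j) := ⟨a, h⟩
    rw [dif_pos h1, hα _ _ _ h1.choose_spec h]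

theorem tr_ne (α : Cf n m) (j : Fin m) : tr α j ≠ some none := by
  unfold tr
  split_ifs <;> simp

theorem tr_none {α : Cf n m} {j : Fin m} : tr α j = none ↔ j ∉ cols α := by
  rw [mem_cols]
  unfold tr
  split_ifs with h
  · simp [h]
  · simp [h]

theorem tr_vu {α : Cf n m} (hα : Valid α) : Vu (tr α) := by
  refine ⟨fun j j' a h h' => ?_, tt_zero.2 (tr_ne α)⟩
  rw [tr_eq hα] at h h'
  rw [h] at h'
  simpa using h'

theorem st_ext {p q : St m} (hp : p ≠ some none) (hq : q ≠ some none)
    (h : ∀ a, p = some (some a) ↔ q = some (some a)) : p = q := by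
  rcases p with _ | _ | a
  · rcases q with _ | _ | b
    · rfl
    · exact absurd rfl hq
    · exact absurd ((h b).2 rfl) (by simp)
  · exact absurd rfl hp
  · exact ((h a).1 rfl).symm

theorem tr_tr {α : Cf n m} (hα : Vu α) : tr (tr α) = α := by
  funext a
  refine st_ext (tr_ne _ _) (tt_zero.1 hα.2 a) fun j => ?_
  rw [tr_eq (tr_vu hα.1).1, tr_eq hα.1]

theorem dd_pairs {α : Cf n m} (h0 : tt α = 0) :
    dd α = (Finset.univ.filter fun p : Fin n × Fin m => α p.1 = some (some p.2)).card := by
  symm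
  unfold dd
  refine Finset.card_bij (fun p _ => p.1) ?_ ?_ ?_
  · intro p hp
    rw [Finset.mem_filter] at hp ⊢
    exact ⟨Finset.mem_univ _, by rw [hp.2]; simp⟩
  · rintro ⟨a, j⟩ hp ⟨b, j'⟩ hq hab
    rw [Finset.mem_filter] at hp hq
    have h1 : a = b := hab
    subst h1
    have h2 := hp.2
    rw [hq.2] at h2
    simp only [Option.some.injEq] at h2
    rw [h2]
  · intro a ha
    rw [Finset.mem_filter] at ha
    rcases h : α a with _ | _ | j
    · exact absurd h ha.2
    · exact absurd h (tt_zero.1 h0 a)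
    · exact ⟨(a, j), Finset.mem_filter.2 ⟨Finset.mem_univ _, h⟩, rfl⟩

theorem dd_tr {α : Cf n m} (hα : Vu α) : dd (tr α) = dd α := by
  rw [dd_pairs hα.2, dd_pairs (tr_vu hα.1).2]
  refine Finset.card_bij (fun p _ => (p.2, p.1)) ?_ ?_ ?_
  · rintro ⟨j, a⟩ hp
    rw [Finset.mem_filter] at hp ⊢
    exact ⟨Finset.mem_univ _, (tr_eq hα.1).1 hp.2⟩
  · rintro ⟨a, j⟩ hp ⟨b, j'⟩ hq hab
    simp only [Prod.mk.injEq] at hab
    rw [hab.1, hab.2]
  · rintro ⟨a, j⟩ hp
    rw [Finset.mem_filter] at hp
    exact ⟨(j, a), Finset.mem_filter.2 ⟨Finset.mem_univ _, (tr_eq hα.1).2 hp.2⟩, rfl⟩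

theorem vu_update {α : Cf n m} {b : Fin n} {j : Fin m} (hb : α b = none) :
    Vu (Function.update α b (some (some j))) ↔ Vu α ∧ j ∉ cols α := by
  have hne : ∀ a j', α a = some (some j') → a ≠ b := by
    rintro a j' h rfl
    rw [hb] at h
    simp at h
  constructor
  · rintro ⟨h1, h2⟩
    refine ⟨⟨fun a a' j' h h' => ?_, tt_zero.2 fun a h => ?_⟩, fun h => ?_⟩
    · refine h1 a a' j' ?_ ?_
      · rw [Function.update_of_ne (hne _ _ h), h]
      · rw [Function.update_of_ne (hne _ _ h'), h']
    · have h3 := tt_zero.1 h2 a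
      rw [Function.update_of_ne (by rintro rfl; rw [hb] at h; simp at h), h] at h3
      exact h3 rfl
    · obtain ⟨a, ha⟩ := mem_cols.1 h
      have h3 := h1 a b j (by rw [Function.update_of_ne (hne _ _ ha), ha])
        (by rw [Function.update_self])
      exact hne _ _ ha h3
  · rintro ⟨⟨h1, h2⟩, h3⟩
    refine ⟨fun a a' j' h h' => ?_, tt_zero.2 fun a => ?_⟩
    · by_cases ha : a = b
      · by_cases ha' : a' = b
        · rw [ha, ha']
        · rw [ha, Function.update_self] at h
          rw [Function.update_of_ne ha'] at h'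
          simp only [Option.some.injEq] at h
          exact absurd (mem_cols.2 ⟨a', by rw [h]; exact h'⟩) h3
      · by_cases ha' : a' = b
        · rw [ha', Function.update_self] at h'
          rw [Function.update_of_ne ha] at h
          simp only [Option.some.injEq] at h'
          exact absurd (mem_cols.2 ⟨a, by rw [h']; exact h⟩) h3
        · rw [Function.update_of_ne ha] at h
          rw [Function.update_of_ne ha'] at h'
          exact h1 _ _ _ h h'
    · by_cases ha : a = b
      · rw [ha, Function.update_self]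
        simp
      · rw [Function.update_of_ne ha]
        exact tt_zero.1 h2 a

theorem tr_update {α : Cf n m} {b : Fin n} {j : Fin m} (hb : α b = none) (hα : Vu α)
    (hj : j ∉ cols α) : tr (Function.update α b (some (some j))) =
      Function.update (tr α) j (some (some b)) := by
  have h1 := (vu_update hb).2 ⟨hα, hj⟩
  funext x
  by_cases hx : x = j
  · rw [hx, Function.update_self, tr_eq h1.1, Function.update_self]
  · rw [Function.update_of_ne hx]
    refine st_ext (tr_ne _ _) (tr_ne _ _) fun a => ?_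
    rw [tr_eq h1.1, tr_eq hα.1]
    by_cases ha : a = b
    · rw [ha, Function.update_self, hb]
      simp only [Option.some.injEq, reduceCtorEq, iff_false]
      exact fun h => hx h.symm
    · rw [Function.update_of_ne ha]

/-- a row of a configuration is in the columns of the transpose iff it is not empty -/
theorem mem_cols_tr {α : Cf n m} (hα : Vu α) {b : Fin n} : b ∈ cols (tr α) ↔ α b ≠ none := by
  rw [mem_cols]
  constructor
  · rintro ⟨j, hj⟩
    rw [(tr_eq hα.1).1 hj]
    simp
  · intro h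
    rcases hb : α b with _ | _ | j
    · exact absurd hb h
    · exact absurd hb (tt_zero.1 hα.2 b)
    · exact ⟨j, (tr_eq hα.1).2 hb⟩

/-- transposition of functions -/
def T1 (n m : ℕ) : Fn n m →ₗ[ℂ] Fn m n where
  toFun f := fun β => if Vu β then f (tr β) else 0
  map_add' := by
    intro f g; funext β
    simp only [Pi.add_apply]
    split_ifs <;> simp
  map_smul' := by
    intro c f; funext β
    simp only [Pi.smul_apply, RingHom.id_apply]
    split_ifs <;> simp

def T2 (n m : ℕ) : Fn2 n m →ₗ[ℂ] Fn2 m n where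
  toFun f := fun ω => if Vu ω.1 ∧ Vu ω.2 then f (tr ω.1, tr ω.2) else 0
  map_add' := by
    intro f g; funext β
    simp only [Pi.add_apply]
    split_ifs <;> simp
  map_smul' := by
    intro c f; funext β
    simp only [Pi.smul_apply, RingHom.id_apply]
    split_ifs <;> simp

theorem T1_apply (f : Fn n m) (β : Cf m n) : T1 n m f β = if Vu β then f (tr β) else 0 := rfl

theorem T2_apply (f : Fn2 n m) (β β' : Cf m n) :
    T2 n m f (β, β') = if Vu β ∧ Vu β' then f (tr β, tr β') else 0 := rfl

theorem T1_mem {i : ℕ} {f : Fn m n} (hf : f ∈ MH m n false i 0) : T1 m n f ∈ LH1 n m i := by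
  obtain ⟨⟨hval, hpos, -⟩, hS⟩ := hf
  have hS' : ∀ α, f α ≠ 0 → dd α = i ∧ tt α ≤ 0 := hS
  refine ⟨fun α hα => ?_, fun α s => ?_⟩
  · rw [T1_apply] at hα
    split_ifs at hα with h1
    · exact ⟨h1.1, h1.2, by rw [← dd_tr h1]; exact (hS' _ hα).1⟩
    · exact absurd rfl hα
  · rcases s with _ | j
    · refine Finset.sum_eq_zero fun b _ => ?_
      rw [T1_apply, if_neg]
      intro h
      exact tt_zero.1 h.2 b (by rw [Function.update_self])
    · by_cases hα : Vu α ∧ j ∉ cols α
      · have h1 := hpos (tr α) j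
        rw [← h1, Finset.sum_filter]
        refine Finset.sum_congr rfl fun b _ => ?_
        split_ifs with hb
        · rw [T1_apply, if_pos ((vu_update hb).2 hα), tr_update hb hα.1 hα.2]
        · symm
          by_contra h2
          have h3 := hval _ h2
          have h4 := tr_none.2 hα.2
          -- `b` is used in another row of the transpose
          obtain ⟨j', hj'⟩ := mem_cols.1 ((mem_cols_tr hα.1).2 hb)
          have hne : j' ≠ j := by
            rintro rfl
            rw [h4] at hj'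
            simp at hj'
          exact hne (h3 j' j b (by rw [Function.update_of_ne hne, hj'])
            (by rw [Function.update_self]))
      · refine Finset.sum_eq_zero fun b hb => ?_
        rw [T1_apply, if_neg]
        rw [vu_update (Finset.mem_filter.1 hb).2]
        exact hα

theorem T1_inj {i : ℕ} {f : Fn m n} (hf : f ∈ MH m n false i 0) (h : T1 m n f = 0) : f = 0 := by
  obtain ⟨⟨hval, -, -⟩, hS⟩ := hf
  have hS' : ∀ α, f α ≠ 0 → dd α = i ∧ tt α ≤ 0 := hS
  funext α
  by_contra h1
  have h1' : f α ≠ 0 := h1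
  have h2 : Vu α := ⟨hval _ h1', Nat.le_zero.1 (hS' _ h1').2⟩
  have h3 := congrFun h (tr α)
  rw [T1_apply, if_pos (tr_vu h2.1), tr_tr h2] at h3
  exact h1 h3

/-- the sums of the transpose -/
theorem T2_sum (F : Cf n m → ℂ) (β : Cf m n) (hβ : Vu β)
    (hF : ∀ (α : Cf n m) (s : Option (Fin m)),
      ∑ b ∈ Finset.univ.filter (fun b => α b = none ∧ tr β b = none),
        F (Function.update α b (some s)) = 0) (α : Cf m n) (a : Fin m) :
    ∑ x ∈ (cols β)ᶜ, (if Vu (Function.update α a (some (some x))) then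
      F (tr (Function.update α a (some (some x)))) else 0) = 0 := by
  obtain ⟨α', hα'⟩ : ∃ α', α' = Function.update α a none := ⟨_, rfl⟩
  have ha : α' a = none := by rw [hα', Function.update_self]
  have hup : ∀ x, Function.update α a (some (some x)) = Function.update α' a (some (some x)) := by
    intro x
    rw [hα', Function.update_idem]
  simp only [hup]
  by_cases hv : Vu α'
  · have h1 := hF (tr α') (some a)
    rw [Finset.sum_filter] at h1
    have h2 : (cols β)ᶜ = Finset.univ.filter (fun x => tr β x = none) := by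
      ext x
      rw [Finset.mem_compl, Finset.mem_filter, tr_none]
      simp
    rw [h2, Finset.sum_filter]
    refine Eq.trans ?_ h1
    refine Finset.sum_congr rfl fun x _ => ?_
    by_cases hx : tr β x = none
    · rw [if_pos hx]
      by_cases hx' : x ∈ cols α'
      · rw [if_neg, if_neg]
        · rw [tr_none]
          exact fun h => h.1 hx'
        · rw [vu_update ha]
          exact fun h => h.2 hx'
      · rw [if_pos ((vu_update ha).2 ⟨hv, hx'⟩), if_pos ⟨tr_none.2 hx', hx⟩,
          tr_update ha hv hx']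
    · rw [if_neg hx, if_neg (fun h => hx h.2)]
  · refine Finset.sum_eq_zero fun x _ => ?_
    rw [if_neg]
    rw [vu_update ha]
    exact fun h => hv h.1

theorem T2_mem {i : ℕ} {F : Fn2 n m} (hF : F ∈ LN2 n m i) :
    T2 n m F ∈ NH m n false ⊓ S2 m n (PP i i 0) := by
  obtain ⟨hsupp, hlab1, hlab2⟩ := hF
  have hne : ∀ ω, T2 n m F ω ≠ 0 → Vu ω.1 ∧ Vu ω.2 ∧ F (tr ω.1, tr ω.2) ≠ 0 := by
    rintro ⟨β, β'⟩ h
    rw [T2_apply] at h
    split_ifs at h with h1
    · exact ⟨h1.1, h1.2, h⟩
    · exact absurd rfl h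
  refine ⟨⟨fun ω hω => ?_, ⟨fun α β a => ?_, fun α β a => ?_⟩, by simp⟩, ?_⟩
  · obtain ⟨h1, h2, -⟩ := hne ω hω
    exact ⟨h1.1, h2.1⟩
  · by_cases hβ : Vu β
    · rw [← T2_sum (fun γ => F (γ, tr β)) β hβ (fun α s => hlab1 α (tr β) s) α a]
      refine Finset.sum_congr rfl fun x _ => ?_
      rw [T2_apply]
      simp only [hβ, and_true]
    · refine Finset.sum_eq_zero fun x _ => ?_
      rw [T2_apply, if_neg (fun h => hβ h.2)]
  · by_cases hα : Vu α
    · rw [← T2_sum (fun γ => F (tr α, γ)) α hα (fun γ s => by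
        rw [← hlab2 (tr α) γ s]
        refine Finset.sum_congr ?_ fun _ _ => rfl
        ext b
        simp only [Finset.mem_filter]
        tauto) β a]
      refine Finset.sum_congr rfl fun x _ => ?_
      rw [T2_apply]
      simp only [hα, true_and]
    · refine Finset.sum_eq_zero fun x _ => ?_
      rw [T2_apply, if_neg (fun h => hα h.1)]
  · intro ω hω
    obtain ⟨h1, h2, h3⟩ := hne ω hω
    obtain ⟨h4, h5⟩ := hsupp _ h3
    refine ⟨?_, ?_, h1.2.le, h2.2.le⟩
    · rw [← dd_tr h1]; exact h4.2.2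
    · rw [← dd_tr h2]; exact h5.2.2

theorem T2_inj {i : ℕ} {F : Fn2 n m} (hF : F ∈ LN2 n m i) (h : T2 n m F = 0) : F = 0 := by
  funext ω
  by_contra h1
  have h1' : F ω ≠ 0 := h1
  obtain ⟨h2, h3⟩ := hF.1 ω h1'
  have e1 : Vu ω.1 := ⟨h2.1, h2.2.1⟩
  have e2 : Vu ω.2 := ⟨h3.1, h3.2.1⟩
  have h4 := congrFun h (tr ω.1, tr ω.2)
  rw [T2_apply, if_pos ⟨tr_vu e1.1, tr_vu e2.1⟩, tr_tr e1, tr_tr e2] at h4
  exact h1 h4

theorem finrank_le_of {E F : Type} [AddCommGroup E] [Module ℂ E] [AddCommGroup F] [Module ℂ F]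
    [FiniteDimensional ℂ F] (T : E →ₗ[ℂ] F) (P : Submodule ℂ E) (Q : Submodule ℂ F)
    (hmem : ∀ x ∈ P, T x ∈ Q) (hinj : ∀ x ∈ P, T x = 0 → x = 0) :
    Module.finrank ℂ P ≤ Module.finrank ℂ Q := by
  refine LinearMap.finrank_le_finrank_of_injective (f := T.restrict hmem) ?_
  rw [← LinearMap.ker_eq_bot, LinearMap.ker_eq_bot']
  rintro ⟨x, hx⟩ h
  have h1 : T x = 0 := congrArg Subtype.val h
  exact Subtype.ext (hinj x hx h1)

end

theorem stmt_TRA (hFIN : Stmt_FIN) (hTENS : Stmt_TENS) : Stmt_TRA := by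
  intro n m i hin
  have h1 : Module.finrank ℂ ↥(LN2 n m i) ≤
      Module.finrank ℂ ↥(NH m n false ⊓ S2 m n (PP i i 0)) :=
    finrank_le_of (T2 n m) _ _ (fun _ h => T2_mem h) (fun _ h h' => T2_inj h h')
  have h2 := hFIN m n i 0 hin
  obtain ⟨e, he1, -, he3⟩ := hTENS (Cf m n) (Cf m n) (MH m n false i 0) (MH m n false i 0)
  have h3 : Module.finrank ℂ ↥(UH m n false ⊓ S2 m n (PP i i 0)) ≤
      Module.finrank ℂ ↥(LinearMap.range e) := by
    apply Submodule.finrank_mono
    rintro F ⟨⟨hF1, hF2⟩, hF3⟩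
    have hF3' : ∀ ω, F ω ≠ 0 → PP i i 0 (dd ω.1) (dd ω.2) (tt ω.1) (tt ω.2) := hF3
    refine (he3 F).2 ⟨fun β => ⟨hF1 β, fun α h => ?_⟩, fun α => ⟨hF2 α, fun β h => ?_⟩⟩
    · exact ⟨(hF3' (α, β) h).1, (hF3' (α, β) h).2.2.1⟩
    · exact ⟨(hF3' (α, β) h).2.1, (hF3' (α, β) h).2.2.2⟩
  rw [LinearMap.finrank_range_of_inj he1, Module.finrank_tensorProduct, ← pow_two] at h3
  have h4 : Module.finrank ℂ ↥(MH m n false i 0) ≤ Module.finrank ℂ ↥(LH1 n m i) :=
    finrank_le_of (T1 m n) _ _ (fun _ h => T1_mem h) (fun _ h h' => T1_inj h h')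
  exact h1.trans (h2.trans (h3.trans (Nat.pow_le_pow_left h4 2)))

end Pool.RookLC.helper67
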